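import Mathlib

set_option autoImplicit false
open scoped ENNReal

namespace Pool.Agent.MP_22519f_co

/-- The game `(D, g, h)` on the digraph with arc relation `E` (`E u v` means `u` sees `v`) is
winnable: each vertex `v` names `g v` of its `h v` colours by a rule that depends only on the
colours of the vertices it sees, and for every colouring some vertex names its own colour. -/
def Winnable {V : Type} (E : V → V → Prop) (g h : V → ℕ) : Prop :=
  ∃ f : ∀ v : V, (∀ u : V, Fin (h u)) → Finset (Fin (h v)),
    (∀ v c, (f v c).card = g v) ∧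
    (∀ v c c', (∀ u, E v u → c u = c' u) → f v c = f v c') ∧
    ∀ c : ∀ u : V, Fin (h u), ∃ v, c v ∈ f v c

/-- `μ_s(D)`: the supremum of the `m > s` for which the Polish game with `s` guesses and `m`
colours is winnable, valued in `[0, ∞]`. -/
noncomputable def mu {V : Type} (E : V → V → Prop) (s : ℕ) : ℝ≥0∞ :=
  ⨆ (m : ℕ) (_ : s < m ∧ Winnable E (fun _ => s) (fun _ => m)), (m : ℝ≥0∞)

/-- The fractional hat guessing number `sup_{s ≥ 1} μ_s(D) / s`. -/
noncomputable def fracHat {V : Type} (E : V → V → Prop) : ℝ≥0∞ :=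
  ⨆ (s : ℕ) (_ : 1 ≤ s), mu E s / (s : ℝ≥0∞)

/-- `S` is redundant in the subdigraph induced on `U`: `S ⊆ U`, and every in-neighbour in `U`
of `S` sees every out-neighbour in `U` of `S`. -/
def Redundant {V : Type} (E : V → V → Prop) (U S : Set V) : Prop :=
  S ⊆ U ∧ ∀ w ∈ U, (∃ v ∈ S, E v w) → ∀ u ∈ U, (∃ v ∈ S, E u v) → E u w

/-- Reachability by a directed walk inside `U`. -/
def ReachIn {V : Type} (E : V → V → Prop) (U : Set V) : V → V → Prop :=
  Relation.ReflTransGen fun x y => x ∈ U ∧ y ∈ U ∧ E x y

/-- The digraph is trivial: some sequence of deletions of redundant sets leaves a vertex set `U`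
on which every strongly connected component is a complete digraph. -/
def IsTrivial {V : Type} (E : V → V → Prop) : Prop :=
  ∃ U : Set V,
    Relation.ReflTransGen (fun U₁ U₂ : Set V => ∃ S, Redundant E U₁ S ∧ U₂ = U₁ \ S) Set.univ U ∧
    ∀ u ∈ U, ∀ v ∈ U, u ≠ v → ReachIn E U u v → ReachIn E U v u → E u v

end Pool.Agent.MP_22519f_co
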