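import Pool.Agent.MP_22519f_co.Defs

set_option autoImplicit false
open scoped ENNReal
open Finset

namespace Pool.Agent.MP_22519f_co

/-- Two directed triangles `0 → 1 → 2 → 0` and `0 → 3 → 4 → 0` sharing the vertex `0`. -/
def E8 (u v : Fin 5) : Prop :=
  (u, v) ∈ ([(0, 1), (1, 2), (2, 0), (0, 3), (3, 4), (4, 0)] : List (Fin 5 × Fin 5))

instance : DecidableRel E8 := fun u v => by unfold E8; infer_instance

/-- Four colours at the shared vertex, two elsewhere. -/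
def h8 (v : Fin 5) : ℕ := if v = 0 then 4 else 2

lemma winnable_sub_nat {V : Type} (E : V → V → Prop) (g h : V → ℕ) (P : V → Prop)
    (hpos : ∀ v, 0 < h v)
    (hw : Winnable (fun u w : {v // P v} => E u w) (fun u => g u) (fun u => h u)) :
    ∃ F : V → (V → ℕ) → Finset ℕ, (∀ v c, (F v c).card ≤ g v) ∧
      (∀ v c c', (∀ u, E v u → c u = c' u) → F v c = F v c') ∧
      (∀ v c, ¬ P v → F v c = ∅) ∧ ∀ c, (∀ v, c v < h v) → ∃ v, c v ∈ F v c := by
  classical
  obtain ⟨f, h1, h2, h3⟩ := hw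
  let cl : (V → ℕ) → ∀ u : {v // P v}, Fin (h u) := fun c u => ⟨c u % h u, Nat.mod_lt _ (hpos u)⟩
  refine ⟨fun v c => if hv : P v then (f ⟨v, hv⟩ (cl c)).map Fin.valEmbedding else ∅,
    ?_, ?_, ?_, ?_⟩
  · intro v c
    by_cases hv : P v
    · simp only [dif_pos hv, card_map]; exact (h1 ⟨v, hv⟩ _).le
    · simp [dif_neg hv]
  · intro v c c' hc
    by_cases hv : P v
    · simp only [dif_pos hv]
      rw [h2 ⟨v, hv⟩ (cl c) (cl c')]
      intro u hu
      simp only [cl, hc u hu]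
    · simp [dif_neg hv]
  · intro v c hv
    simp [dif_neg hv]
  · intro c hc
    obtain ⟨⟨v, hv⟩, hv'⟩ := h3 (cl c)
    refine ⟨v, ?_⟩
    simp only [dif_pos hv, mem_map]
    exact ⟨_, hv', Nat.mod_eq_of_lt (hc v)⟩

lemma winnable_nat {V : Type} (E : V → V → Prop) (g h : V → ℕ)
    (hpos : ∀ v, 0 < h v) (hw : Winnable E g h) :
    ∃ F : V → (V → ℕ) → Finset ℕ, (∀ v c, (F v c).card ≤ g v) ∧
      (∀ v c c', (∀ u, E v u → c u = c' u) → F v c = F v c') ∧
      ∀ c, (∀ v, c v < h v) → ∃ v, c v ∈ F v c := by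
  obtain ⟨f, h1, h2, h3⟩ := hw
  let cl : (V → ℕ) → ∀ u, Fin (h u) := fun c u => ⟨c u % h u, Nat.mod_lt _ (hpos u)⟩
  refine ⟨fun v c => (f v (cl c)).map Fin.valEmbedding, ?_, ?_, ?_⟩
  · intro v c
    simp only [card_map]; exact (h1 v _).le
  · intro v c c' hc
    simp only
    rw [h2 v (cl c) (cl c')]
    intro u hu
    simp only [cl, hc u hu]
  · intro c hc
    obtain ⟨v, hv'⟩ := h3 (cl c)
    refine ⟨v, ?_⟩
    simp only [mem_map]
    exact ⟨_, hv', Nat.mod_eq_of_lt (hc v)⟩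

lemma winnable_of_nat {V : Type} (E : V → V → Prop) (h : V → ℕ) (hpos : ∀ v, 0 < h v)
    (G : V → (V → ℕ) → ℕ) (hG : ∀ v c c', (∀ u, E v u → c u = c' u) → G v c = G v c')
    (hwin : ∀ c, (∀ v, c v < h v) → ∃ v, c v = G v c) : Winnable E (fun _ => 1) h := by
  refine ⟨fun v c => {⟨G v (fun u => c u) % h v, Nat.mod_lt _ (hpos v)⟩}, ?_, ?_, ?_⟩
  · intro v c; simp
  · intro v c c' hc
    simp only
    rw [hG v (fun u => c u) (fun u => c' u) fun u hu => by rw [hc u hu]]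
  · intro c
    obtain ⟨v, hv⟩ := hwin (fun u => c u) fun u => (c u).2
    refine ⟨v, ?_⟩
    rw [mem_singleton, Fin.ext_iff]
    simp only
    rw [← hv, Nat.mod_eq_of_lt (c v).2]

lemma exists_notMem_lt (T : Finset ℕ) (m : ℕ) (h : T.card < m) : ∃ x < m, x ∉ T := by
  by_contra hc
  push Not at hc
  have : range m ⊆ T := fun x hx => hc x (mem_range.1 hx)
  have := card_le_card this
  rw [card_range] at this
  omega

/-- A colour which is named for at most `s` of the colours seen. -/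
lemma exists_rare (G : ℕ → Finset ℕ) (s m : ℕ) (hm : 0 < m) (hG : ∀ y, (G y).card ≤ s) :
    ∃ β < m, ((range m).filter fun y => β ∈ G y).card ≤ s := by
  have h1 : ∑ β ∈ range m, ((range m).filter fun y => β ∈ G y).card ≤ ∑ _β ∈ range m, s := by
    calc ∑ β ∈ range m, ((range m).filter fun y => β ∈ G y).card
        = ∑ y ∈ range m, ((range m).filter fun β => β ∈ G y).card := by
          simp only [card_filter]; exact sum_comm
      _ ≤ ∑ _y ∈ range m, s := by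
          apply sum_le_sum
          intro y _
          refine le_trans (card_le_card ?_) (hG y)
          intro β hβ
          exact (mem_filter.1 hβ).2
  obtain ⟨β, hβ, hβ'⟩ := exists_le_of_sum_le ⟨0, mem_range.2 hm⟩ h1
  exact ⟨β, mem_range.1 hβ, hβ'⟩

lemma free_colour (G H : ℕ → Finset ℕ) (s m : ℕ) (hm : 2 * s < m) (hG : ∀ y, (G y).card ≤ s)
    (hH : ∀ x, (H x).card ≤ s) : ∃ β < m, ∀ x, ∃ y < m, β ∉ G y ∧ y ∉ H x := by
  obtain ⟨β, hβ, hβ'⟩ := exists_rare G s m (by omega) hG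
  refine ⟨β, hβ, fun x => ?_⟩
  obtain ⟨y, hy, hy'⟩ := exists_notMem_lt (((range m).filter fun y => β ∈ G y) ∪ H x) m
    (lt_of_le_of_lt (card_union_le _ _) (by have := hH x; omega))
  rw [mem_union, not_or, mem_filter, mem_range] at hy'
  exact ⟨y, hy, fun h => hy'.1 ⟨hy, h⟩, hy'.2⟩

section Local
variable {F : Fin 5 → (Fin 5 → ℕ) → Finset ℕ}
  (hF : ∀ v c c', (∀ u, E8 v u → c u = c' u) → F v c = F v c')
include hF

lemma loc0 (x β y δ z : ℕ) : F 0 ![x, β, y, δ, z] = F 0 ![0, β, 0, δ, 0] := by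
  apply hF; intro u hu; revert hu; fin_cases u <;> simp [E8]
lemma loc1 (x β y δ z : ℕ) : F 1 ![x, β, y, δ, z] = F 1 fun _ => y := by
  apply hF; intro u hu; revert hu; fin_cases u <;> simp [E8]
lemma loc2 (x β y δ z : ℕ) : F 2 ![x, β, y, δ, z] = F 2 fun _ => x := by
  apply hF; intro u hu; revert hu; fin_cases u <;> simp [E8]
lemma loc3 (x β y δ z : ℕ) : F 3 ![x, β, y, δ, z] = F 3 fun _ => z := by
  apply hF; intro u hu; revert hu; fin_cases u <;> simp [E8]
lemma loc4 (x β y δ z : ℕ) : F 4 ![x, β, y, δ, z] = F 4 fun _ => x := by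
  apply hF; intro u hu; revert hu; fin_cases u <;> simp [E8]

lemma all_wrong (x β y δ z : ℕ) (h0 : x ∉ F 0 ![0, β, 0, δ, 0]) (h1 : β ∉ F 1 fun _ => y)
    (h2 : y ∉ F 2 fun _ => x) (h3 : δ ∉ F 3 fun _ => z) (h4 : z ∉ F 4 fun _ => x) :
    ¬ ∃ v, ![x, β, y, δ, z] v ∈ F v ![x, β, y, δ, z] := by
  rintro ⟨v, hv⟩
  fin_cases v
  · exact h0 (by rw [← loc0 hF x β y δ z]; exact hv)
  · exact h1 (by rw [← loc1 hF x β y δ z]; exact hv)
  · exact h2 (by rw [← loc2 hF x β y δ z]; exact hv)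
  · exact h3 (by rw [← loc3 hF x β y δ z]; exact hv)
  · exact h4 (by rw [← loc4 hF x β y δ z]; exact hv)

end Local

theorem polish_le (s m : ℕ) (hw : Winnable E8 (fun _ => s) (fun _ => m)) : m ≤ 2 * s := by
  by_contra hm
  push Not at hm
  obtain ⟨F, h1, h2, h3⟩ := winnable_nat E8 _ _ (fun _ => by omega) hw
  obtain ⟨β, hβ, hβ'⟩ := free_colour (fun y => F 1 fun _ => y) (fun x => F 2 fun _ => x) s m hm
    (fun _ => h1 _ _) (fun _ => h1 _ _)
  obtain ⟨δ, hδ, hδ'⟩ := free_colour (fun y => F 3 fun _ => y) (fun x => F 4 fun _ => x) s m hm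
    (fun _ => h1 _ _) (fun _ => h1 _ _)
  obtain ⟨x, hx, hx'⟩ := exists_notMem_lt (F 0 ![0, β, 0, δ, 0]) m
    (lt_of_le_of_lt (h1 _ _) (by omega))
  obtain ⟨y, hy, hy1, hy2⟩ := hβ' x
  obtain ⟨z, hz, hz1, hz2⟩ := hδ' x
  apply all_wrong h2 x β y δ z hx' hy1 hy2 hz1 hz2
  apply h3
  intro v
  fin_cases v <;> simpa

theorem latvian_win : Winnable E8 (fun _ => 1) h8 := by
  apply winnable_of_nat E8 h8 (by decide)
    (fun v c => ![c 1 + 2 * c 3, c 2, c 0 % 2, c 4, c 0 / 2] v)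
  · intro v c c' hc
    fin_cases v
    · simp [hc 1 (by decide), hc 3 (by decide)]
    · simp [hc 2 (by decide)]
    · simp [hc 0 (by decide)]
    · simp [hc 4 (by decide)]
    · simp [hc 0 (by decide)]
  · intro c hc
    have a0 : c 0 < 4 := hc 0
    have a1 : c 1 < 2 := hc 1
    have a2 : c 2 < 2 := hc 2
    have a3 : c 3 < 2 := hc 3
    have a4 : c 4 < 2 := hc 4
    by_contra hcon
    push Not at hcon
    have b0 : c 0 ≠ c 1 + 2 * c 3 := hcon 0
    have b1 : c 1 ≠ c 2 := hcon 1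
    have b2 : c 2 ≠ c 0 % 2 := hcon 2
    have b3 : c 3 ≠ c 4 := hcon 3
    have b4 : c 4 ≠ c 0 / 2 := hcon 4
    omega

theorem polish_two : Winnable E8 (fun _ => 1) (fun _ => 2) := by
  apply winnable_of_nat E8 _ (by decide) (fun v c => ![c 1, c 2, c 0, c 4, c 0] v)
  · intro v c c' hc
    fin_cases v
    · simp [hc 1 (by decide)]
    · simp [hc 2 (by decide)]
    · simp [hc 0 (by decide)]
    · simp [hc 4 (by decide)]
    · simp [hc 0 (by decide)]
  · intro c hc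
    have a0 : c 0 < 2 := hc 0
    have a1 : c 1 < 2 := hc 1
    have a2 : c 2 < 2 := hc 2
    by_contra hcon
    push Not at hcon
    have b0 : c 0 ≠ c 1 := hcon 0
    have b1 : c 1 ≠ c 2 := hcon 1
    have b2 : c 2 ≠ c 0 := hcon 2
    omega

theorem fracHat_eq : fracHat E8 = (2 : ℕ) := by
  apply le_antisymm
  · unfold fracHat
    refine iSup₂_le fun s hs => ?_
    apply ENNReal.div_le_of_le_mul
    unfold mu
    refine iSup₂_le fun m hm => ?_
    exact_mod_cast polish_le s m hm.2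
  · unfold fracHat
    refine le_iSup₂_of_le 1 le_rfl ?_
    rw [Nat.cast_one, div_one]
    unfold mu
    exact le_iSup₂_of_le 2 ⟨by norm_num, polish_two⟩ le_rfl

theorem critical (v₀ : Fin 5) :
    ¬ Winnable (fun u w : {v // v ≠ v₀} => E8 u w) (fun _ => 1) (fun u => h8 u) := by
  intro hw
  obtain ⟨F, h1, h2, h0, h3⟩ := winnable_sub_nat E8 (fun _ => 1) h8 (fun v => v ≠ v₀)
    (by decide) hw
  have hz : ∀ c, F v₀ c = ∅ := fun c => h0 v₀ c (by simp)
  have pick : ∀ v c, ∃ y < 2, y ∉ F v c := fun v c =>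
    exists_notMem_lt _ 2 (lt_of_le_of_lt (h1 v c) (by norm_num))
  have pick2 : ∀ c c', ∃ x < 4, x ∉ F 0 c ∧ x ∉ F 0 c' := by
    intro c c'
    obtain ⟨x, hx, hx'⟩ := exists_notMem_lt (F 0 c ∪ F 0 c') 4
      (lt_of_le_of_lt (card_union_le _ _) (by have := h1 0 c; have := h1 0 c'; omega))
    rw [mem_union, not_or] at hx'
    exact ⟨x, hx, hx'⟩
  have fin : ∀ x β y δ z : ℕ, x < 4 → β < 2 → y < 2 → δ < 2 → z < 2 →
      ∃ v, ![x, β, y, δ, z] v ∈ F v ![x, β, y, δ, z] := by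
    intro x β y δ z _ _ _ _ _
    apply h3
    intro v
    fin_cases v <;> simp [h8] <;> omega
  have two : ∀ δ : ℕ, δ < 2 → δ = 0 ∨ δ = 1 := by omega
  fin_cases v₀
  · obtain ⟨y, hy, hy'⟩ := pick 2 fun _ => 0
    obtain ⟨β, hβ, hβ'⟩ := pick 1 fun _ => y
    obtain ⟨z, hz1, hz'⟩ := pick 4 fun _ => 0
    obtain ⟨δ, hδ, hδ'⟩ := pick 3 fun _ => z
    exact all_wrong h2 0 β y δ z (by rw [show F 0 _ = ∅ from hz _]; simp) hβ' hy' hδ' hz'
      (fin _ _ _ _ _ (by norm_num) hβ hy hδ hz1)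
  · obtain ⟨x, hx, hx0, hx1⟩ := pick2 ![0, 0, 0, 0, 0] ![0, 0, 0, 1, 0]
    obtain ⟨y, hy, hy'⟩ := pick 2 fun _ => x
    obtain ⟨z, hz1, hz'⟩ := pick 4 fun _ => x
    obtain ⟨δ, hδ, hδ'⟩ := pick 3 fun _ => z
    refine all_wrong h2 x 0 y δ z ?_ (by rw [show F 1 _ = ∅ from hz _]; simp) hy' hδ' hz'
      (fin _ _ _ _ _ hx (by norm_num) hy hδ hz1)
    rcases two δ hδ with rfl | rfl <;> assumption
  · obtain ⟨β, hβ, hβ'⟩ := pick 1 fun _ => 0
    obtain ⟨x, hx, hx0, hx1⟩ := pick2 ![0, β, 0, 0, 0] ![0, β, 0, 1, 0]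
    obtain ⟨z, hz1, hz'⟩ := pick 4 fun _ => x
    obtain ⟨δ, hδ, hδ'⟩ := pick 3 fun _ => z
    refine all_wrong h2 x β 0 δ z ?_ hβ' (by rw [show F 2 _ = ∅ from hz _]; simp) hδ' hz'
      (fin _ _ _ _ _ hx hβ (by norm_num) hδ hz1)
    rcases two δ hδ with rfl | rfl <;> assumption
  · obtain ⟨x, hx, hx0, hx1⟩ := pick2 ![0, 0, 0, 0, 0] ![0, 1, 0, 0, 0]
    obtain ⟨y, hy, hy'⟩ := pick 2 fun _ => x
    obtain ⟨z, hz1, hz'⟩ := pick 4 fun _ => x
    obtain ⟨β, hβ, hβ'⟩ := pick 1 fun _ => y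
    refine all_wrong h2 x β y 0 z ?_ hβ' hy' (by rw [show F 3 _ = ∅ from hz _]; simp) hz'
      (fin _ _ _ _ _ hx hβ hy (by norm_num) hz1)
    rcases two β hβ with rfl | rfl <;> assumption
  · obtain ⟨δ, hδ, hδ'⟩ := pick 3 fun _ => 0
    obtain ⟨x, hx, hx0, hx1⟩ := pick2 ![0, 0, 0, δ, 0] ![0, 1, 0, δ, 0]
    obtain ⟨y, hy, hy'⟩ := pick 2 fun _ => x
    obtain ⟨β, hβ, hβ'⟩ := pick 1 fun _ => y
    refine all_wrong h2 x β y δ 0 ?_ hβ' hy' hδ' (by rw [show F 4 _ = ∅ from hz _]; simp)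
      (fin _ _ _ _ _ hx hβ hy hδ (by norm_num))
    rcases two β hβ with rfl | rfl <;> assumption

theorem strongly_connected (u v : Fin 5) : Relation.ReflTransGen E8 u v := by
  have s : ∀ a b, E8 a b → Relation.ReflTransGen E8 a b := fun a b h => .single h
  have a01 := s 0 1 (by decide)
  have a12 := s 1 2 (by decide)
  have a20 := s 2 0 (by decide)
  have a03 := s 0 3 (by decide)
  have a34 := s 3 4 (by decide)
  have a40 := s 4 0 (by decide)
  have to0 : ∀ a, Relation.ReflTransGen E8 a 0 := by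
    intro a
    fin_cases a
    exacts [.refl, a12.trans a20, a20, a34.trans a40, a40]
  have from0 : ∀ a, Relation.ReflTransGen E8 0 a := by
    intro a
    fin_cases a
    exacts [.refl, a01, a01.trans a12, a03, a03.trans a34]
  exact (to0 u).trans (from0 v)

theorem no_redundant (S : Set (Fin 5)) (h : Redundant E8 Set.univ S) : S = ∅ := by
  rw [Set.eq_empty_iff_forall_notMem]
  intro v hv
  have key : ∀ w u, E8 v w → E8 u v → E8 u w := fun w u h1 h2 =>
    h.2 w trivial ⟨v, hv, h1⟩ u trivial ⟨v, hv, h2⟩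
  clear hv h
  revert v
  decide

theorem not_trivial : ¬ IsTrivial E8 := by
  rintro ⟨U, hU, hc⟩
  have : U = Set.univ := by
    clear hc
    induction hU with
    | refl => rfl
    | tail _ h ih =>
      obtain ⟨S, hS, rfl⟩ := h
      subst ih
      rw [no_redundant S hS, Set.sdiff_empty]
  subst this
  have r : ∀ u v, ReachIn E8 Set.univ u v := by
    intro u v
    unfold ReachIn
    simpa using strongly_connected u v
  exact absurd (hc 1 trivial 0 trivial (by decide) (r 1 0) (r 0 1)) (by decide)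

end Pool.Agent.MP_22519f_co
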